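import Pool.Agent.H504S.Defs

set_option autoImplicit false

namespace H504S

open H730HC Finset
open scoped ComplexConjugate ComplexOrder

universe u v

attribute [local instance] CStarAlgebra.spectralOrder CStarAlgebra.spectralOrderedRing

variable {A : Type u} [CStarAlgebra A]

theorem G_pos {ρ : A →L[ℂ] ℂ} (hρ : IsPos ρ) {h : A} (hh : 0 ≤ h) : 0 ≤ (ρ h).re := by
  obtain ⟨b, rfl⟩ := CStarAlgebra.nonneg_iff_eq_star_mul_self.mp hh
  exact (Complex.le_def.mp (hρ b)).1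

theorem G_mono {ρ : A →L[ℂ] ℂ} (hρ : IsPos ρ) {a b : A} (hab : a ≤ b) : (ρ a).re ≤ (ρ b).re := by
  have h := G_pos hρ (sub_nonneg.mpr hab)
  rw [map_sub, Complex.sub_re] at h
  linarith

theorem G_IsPT_sum (T : Finset (A →L[ℂ] ℂ)) (hT : ∀ τ ∈ T, IsPT τ) : IsPT (∑ τ ∈ T, τ) := by
  classical
  constructor
  · intro x
    rw [_root_.sum_apply]
    exact Finset.sum_nonneg fun τ hτ => (hT τ hτ).1 x
  · intro x y
    rw [_root_.sum_apply, _root_.sum_apply]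
    exact Finset.sum_congr rfl fun τ hτ => (hT τ hτ).2 x y

theorem G_real_smul (c : ℝ) (x : A) : c • x = (c : ℂ) • x := (Complex.coe_smul c x).symm

theorem G_tr_conj {τ : A →L[ℂ] ℂ} (hτ : IsPT τ) (v : unitary A) (h : A) :
    τ (star (v : A) * h * (v : A)) = τ h := by
  rw [hτ.2, ← mul_assoc]
  have : (v : A) * star (v : A) = 1 := Unitary.coe_mul_star_self v
  rw [this, one_mul]

/-- the norm of an element of the operator interval -/
theorem G_norm {e : A} (h0 : 0 ≤ e) (h1 : e ≤ 1) : ‖e‖ ≤ 1 :=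
  (CStarAlgebra.norm_le_one_iff_of_nonneg e h0).mpr h1

theorem G_sq_le {d : A} (h0 : 0 ≤ d) (h1 : d ≤ 1) : d * d ≤ d := by
  have h := CStarAlgebra.pow_antitone h0 h1 (show 1 ≤ 2 by norm_num)
  simpa [pow_two] using h

/-- `τ((e y)(e y)*) ≤ τ(y y*)` -/
theorem G_tr_cut {τ : A →L[ℂ] ℂ} (hτ : IsPT τ) {e : A} (h0 : 0 ≤ e) (h1 : e ≤ 1) (y : A) :
    (τ ((e * y) * star (e * y))).re ≤ (τ (y * star y)).re := by
  rw [hτ.2 (e * y), hτ.2 y]
  apply G_mono hτ.1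
  have he : star e = e := (IsSelfAdjoint.of_nonneg h0).star_eq
  have h2 : e * e ≤ 1 := (G_sq_le h0 h1).trans h1
  have h3 := star_left_conjugate_le_conjugate h2 y
  rw [star_mul, he]
  calc star y * e * (e * y) = star y * (e * e) * y := by noncomm_ring
    _ ≤ star y * 1 * y := h3
    _ = star y * y := by rw [mul_one]

/-- `τ((d y)(d y)*) ≤ ‖y‖² τ(d)` -/
theorem G_tr_small {τ : A →L[ℂ] ℂ} (hτ : IsPT τ) {d : A} (h0 : 0 ≤ d) (h1 : d ≤ 1) (y : A) :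
    (τ ((d * y) * star (d * y))).re ≤ ‖y‖ ^ 2 * (τ d).re := by
  have hd : star d = d := (IsSelfAdjoint.of_nonneg h0).star_eq
  have h2 : y * star y ≤ algebraMap ℝ A (‖y‖ ^ 2) := CStarAlgebra.mul_star_le_algebraMap_norm_sq
  have h3 := star_left_conjugate_le_conjugate h2 d
  have h4 : (d * y) * star (d * y) ≤ (‖y‖ ^ 2) • (d * d) := by
    rw [star_mul, hd]
    rw [hd] at h3
    calc d * y * (star y * d) = d * (y * star y) * d := by noncomm_ring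
      _ ≤ d * algebraMap ℝ A (‖y‖ ^ 2) * d := h3
      _ = (‖y‖ ^ 2) • (d * d) := by
        rw [Algebra.algebraMap_eq_smul_one, mul_smul_comm, mul_one, smul_mul_assoc]
  have h5 := G_mono hτ.1 h4
  have h6 := G_mono hτ.1 (G_sq_le h0 h1)
  rw [G_real_smul, map_smul, smul_eq_mul, Complex.re_ofReal_mul] at h5
  exact h5.trans (mul_le_mul_of_nonneg_left h6 (sq_nonneg _))

/-- properties of the pointwise decomposition -/
def GDec (σ : (A →L[ℂ] ℂ) → ℕ → (A →L[ℂ] ℂ)) : Prop :=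
  ∀ φ, (∀ k, IsPT (σ φ k)) ∧
    ∀ (τ : A →L[ℂ] ℂ), IsPT τ → ∀ (n : ℕ) (δ : ℝ), 0 < δ → ∃ x : A, ‖x‖ ≤ 1 ∧
      (τ (x * star x)).re ≤ δ ∧ ∀ k ≤ n, ∀ y : A,
        ‖φ ((1 - x * star x) * y)‖ ≤
          Real.sqrt ((σ φ k (y * star y)).re) + (1 / ((k : ℝ) + 1)) * ‖y‖

/-- the conclusion of the telescoping lemma -/
def GTele (A : Type u) [CStarAlgebra A] : Prop :=
  ∀ (E : Finset (unitary A)) (ε : ℝ), 0 < ε →
    ∃ (V : Finset (unitary A)) (c : ℝ), 0 ≤ c ∧ ∀ h : A, 0 ≤ h → ∃ e : A, 0 ≤ e ∧ e ≤ 1 ∧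
      (∀ u ∈ E, ‖(u : A) * e - e * (u : A)‖ ≤ ε) ∧
      1 - e ≤ c • ∑ v ∈ V, star (v : A) * h * (v : A) ∧
      ∀ z : A, star z * z ≤ h → ‖z * e‖ ≤ ε

theorem G_choose (htele : GTele A) (σ : (A →L[ℂ] ℂ) → ℕ → (A →L[ℂ] ℂ)) (hσ : GDec σ)
    (E : Finset (unitary A)) (S T : Finset (A →L[ℂ] ℂ)) (n : ℕ) :
    ∃ e : A, 0 ≤ e ∧ e ≤ 1 ∧ (∀ u ∈ E, ‖(u : A) * e - e * (u : A)‖ ≤ 1 / ((n : ℝ) + 1)) ∧
      (∀ τ ∈ T, IsPT τ → (τ (1 - e)).re ≤ 1 / ((n : ℝ) + 1)) ∧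
      ∀ φ ∈ S, ∀ k ≤ n, ∀ y : A, ‖φ (e * y)‖ ≤ Real.sqrt ((σ φ k (y * star y)).re) +
        (1 / ((k : ℝ) + 1) + ‖φ‖ * (1 / ((n : ℝ) + 1))) * ‖y‖ := by
  classical
  have hε : 0 < 1 / ((n : ℝ) + 1) := by positivity
  obtain ⟨V, c, hc, hV⟩ := htele E (1 / ((n : ℝ) + 1)) hε
  set T' := T.filter (fun τ => IsPT τ) with hT'
  have hT'P : ∀ τ ∈ T', IsPT τ := fun τ hτ => (Finset.mem_filter.mp hτ).2
  set τs : A →L[ℂ] ℂ := ∑ τ ∈ T', τ with hτs
  have hτsP : IsPT τs := G_IsPT_sum T' hT'P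
  set M : ℝ := c * (V.card : ℝ) * (S.card : ℝ) with hM
  have hM0 : 0 ≤ M := by positivity
  set δ : ℝ := (1 / ((n : ℝ) + 1)) / (M + 1) with hδ
  have hδ0 : 0 < δ := by positivity
  have hex : ∀ φ : A →L[ℂ] ℂ, ∃ x : A, ‖x‖ ≤ 1 ∧ (τs (x * star x)).re ≤ δ ∧ ∀ k ≤ n, ∀ y : A,
        ‖φ ((1 - x * star x) * y)‖ ≤
          Real.sqrt ((σ φ k (y * star y)).re) + (1 / ((k : ℝ) + 1)) * ‖y‖ :=
    fun φ => (hσ φ).2 τs hτsP n δ hδ0
  choose x hx1 hx2 hx3 using hex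
  set h : A := ∑ φ ∈ S, x φ * star (x φ) with hh
  have hterm : ∀ φ ∈ S, 0 ≤ x φ * star (x φ) := fun φ _ => mul_star_self_nonneg (x φ)
  have hh0 : 0 ≤ h := Finset.sum_nonneg hterm
  obtain ⟨e, he0, he1, hcomm, htr, hz⟩ := hV h hh0
  have hen := G_norm he0 he1
  refine ⟨e, he0, he1, hcomm, ?_, ?_⟩
  · intro τ hτ hτP
    have hmem : τ ∈ T' := Finset.mem_filter.mpr ⟨hτ, hτP⟩
    have h1e : 0 ≤ 1 - e := sub_nonneg.mpr he1
    have hle : (τ (1 - e)).re ≤ (τs (1 - e)).re := by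
      rw [hτs, _root_.sum_apply, Complex.re_sum]
      exact Finset.single_le_sum (f := fun τ : A →L[ℂ] ℂ => (τ (1 - e)).re)
        (fun τ' hτ' => G_pos (hT'P τ' hτ').1 h1e) hmem
    have h2 := G_mono hτsP.1 htr
    have h3 : (τs (c • ∑ v ∈ V, star (v : A) * h * (v : A))).re =
        c * ((V.card : ℝ) * (τs h).re) := by
      rw [G_real_smul, map_smul, smul_eq_mul, Complex.re_ofReal_mul, map_sum, Complex.re_sum]
      congr 1
      rw [Finset.sum_congr rfl (fun v _ => by rw [G_tr_conj hτsP v h]), Finset.sum_const,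
        nsmul_eq_mul]
    have h4 : (τs h).re ≤ (S.card : ℝ) * δ := by
      rw [hh, map_sum, Complex.re_sum]
      refine (Finset.sum_le_card_nsmul S _ δ fun φ _ => hx2 φ).trans ?_
      rw [nsmul_eq_mul]
    have h5 : c * ((V.card : ℝ) * (τs h).re) ≤ M * δ := by
      calc c * ((V.card : ℝ) * (τs h).re) ≤ c * ((V.card : ℝ) * ((S.card : ℝ) * δ)) := by
            gcongr
        _ = M * δ := by rw [hM]; ring
    have h6 : M * δ ≤ 1 / ((n : ℝ) + 1) := by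
      have : M * δ = (1 / ((n : ℝ) + 1)) * (M / (M + 1)) := by rw [hδ]; ring
      rw [this]
      have h7 : M / (M + 1) ≤ 1 := by rw [div_le_one (by positivity)]; linarith
      calc (1 / ((n : ℝ) + 1)) * (M / (M + 1)) ≤ (1 / ((n : ℝ) + 1)) * 1 := by gcongr
        _ = _ := mul_one _
    linarith
  · intro φ hφ k hk y
    have hzφ : ‖star (x φ) * e‖ ≤ 1 / ((n : ℝ) + 1) := by
      apply hz
      rw [star_star]
      exact Finset.single_le_sum hterm hφ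
    have e1 : e * y = (1 - x φ * star (x φ)) * (e * y) + x φ * (star (x φ) * e * y) := by
      noncomm_ring
    have h1 := hx3 φ k hk (e * y)
    have h2 : ‖φ (x φ * (star (x φ) * e * y))‖ ≤ ‖φ‖ * ((1 / ((n : ℝ) + 1)) * ‖y‖) := by
      refine (φ.le_opNorm _).trans ?_
      refine mul_le_mul_of_nonneg_left ?_ (norm_nonneg _)
      calc ‖x φ * (star (x φ) * e * y)‖ ≤ ‖x φ‖ * (‖star (x φ) * e‖ * ‖y‖) :=
            (norm_mul_le _ _).trans (mul_le_mul_of_nonneg_left (norm_mul_le _ _) (norm_nonneg _))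
        _ ≤ 1 * ((1 / ((n : ℝ) + 1)) * ‖y‖) := by
            have := hx1 φ
            gcongr
        _ = _ := one_mul _
    have h3 : Real.sqrt ((σ φ k ((e * y) * star (e * y))).re) ≤
        Real.sqrt ((σ φ k (y * star y)).re) :=
      Real.sqrt_le_sqrt (G_tr_cut ((hσ φ).1 k) he0 he1 y)
    have h4 : ‖e * y‖ ≤ ‖y‖ := by
      calc ‖e * y‖ ≤ ‖e‖ * ‖y‖ := norm_mul_le _ _
        _ ≤ 1 * ‖y‖ := by gcongr
        _ = _ := one_mul _
    have h5 : ‖φ (e * y)‖ ≤ ‖φ ((1 - x φ * star (x φ)) * (e * y))‖ +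
        ‖φ (x φ * (star (x φ) * e * y))‖ := by
      conv_lhs => rw [e1, map_add]
      exact norm_add_le _ _
    have h6 : (1 / ((k : ℝ) + 1)) * ‖e * y‖ ≤ (1 / ((k : ℝ) + 1)) * ‖y‖ := by gcongr
    calc ‖φ (e * y)‖ ≤ _ := h5
      _ ≤ (Real.sqrt ((σ φ k ((e * y) * star (e * y))).re) + (1 / ((k : ℝ) + 1)) * ‖e * y‖) +
          ‖φ‖ * ((1 / ((n : ℝ) + 1)) * ‖y‖) := add_le_add h1 h2
      _ ≤ (Real.sqrt ((σ φ k (y * star y)).re) + (1 / ((k : ℝ) + 1)) * ‖y‖) +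
          ‖φ‖ * ((1 / ((n : ℝ) + 1)) * ‖y‖) := by linarith
      _ = _ := by ring

/-- index set -/
abbrev GK (A : Type u) [CStarAlgebra A] : Type u :=
  Finset (unitary A) × Finset (A →L[ℂ] ℂ) × Finset (A →L[ℂ] ℂ) × ℕ

/-- limits along an ultrafilter of a bounded family of functionals -/
theorem G_tendsto {K : Type u} (F : Ultrafilter K) (f : K → (A →L[ℂ] ℂ)) (C : ℝ)
    (hf : ∀ κ, ‖f κ‖ ≤ C) (x : A) :
    Filter.Tendsto (fun κ => f κ x) (F : Filter K)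
      (nhds (EX (fun g : K → ℝ => ulim F (fun κ => g κ)) f x)) := by
  have hm : IsMean (fun g : K → ℝ => ulim F (fun κ => g κ)) :=
    ultra_isMean F (fun κ g => g κ) (fun κ => T08_mean_point κ)
  have hspec := (EX_spec hm f C hf).1 x
  have hbd : ∀ κ, ‖f κ x‖ ≤ C * ‖x‖ := R04_bdx hf x
  have h1 := ultra_tendsto F (fun κ (g : K → ℝ) => g κ) (fun κ => T08_mean_point κ)
    (fun κ => (f κ x).re) (R04_bre ⟨_, hbd⟩)
  have h2 := ultra_tendsto F (fun κ (g : K → ℝ) => g κ) (fun κ => T08_mean_point κ)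
    (fun κ => (f κ x).im) (R04_bim ⟨_, hbd⟩)
  rw [← hspec.1] at h1
  rw [← hspec.2] at h2
  have h3 := ((Complex.continuous_ofReal.tendsto _).comp h1).add
    (((Complex.continuous_ofReal.tendsto _).comp h2).mul_const Complex.I)
  rw [Complex.re_add_im] at h3
  refine h3.congr fun κ => ?_
  exact Complex.re_add_im (f κ x)

theorem G_ra_norm (φ : A →L[ℂ] ℂ) {e : A} (h0 : 0 ≤ e) (h1 : e ≤ 1) : ‖ra φ e‖ ≤ ‖φ‖ := by
  refine ContinuousLinearMap.opNorm_le_bound _ (norm_nonneg _) fun x => ?_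
  show ‖φ (e * x)‖ ≤ ‖φ‖ * ‖x‖
  refine (φ.le_opNorm _).trans (mul_le_mul_of_nonneg_left ?_ (norm_nonneg _))
  calc ‖e * x‖ ≤ ‖e‖ * ‖x‖ := norm_mul_le _ _
    _ ≤ 1 * ‖x‖ := by
      have := G_norm h0 h1
      gcongr
    _ = _ := one_mul _

theorem dec_of (htele : GTele A) (σ : (A →L[ℂ] ℂ) → ℕ → (A →L[ℂ] ℂ)) (hσ : GDec σ) :
    ∃ P : (A →L[ℂ] ℂ) → (A →L[ℂ] ℂ),
    (∀ φ ψ, P (φ + ψ) = P φ + P ψ) ∧ (∀ (c : ℂ) φ, P (c • φ) = c • P φ) ∧ (∀ φ, ‖P φ‖ ≤ ‖φ‖) ∧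
    (∀ a φ, P (la a φ) = la a (P φ)) ∧ (∀ a φ, P (ra φ a) = ra (P φ) a) ∧
    (∀ φ, FT (P φ)) ∧ ∀ φ, InfT (φ - P φ) := by
  classical
  have hex : ∀ κ : GK A, _ := fun κ => G_choose htele σ hσ κ.1 κ.2.1 κ.2.2.1 κ.2.2.2
  choose e he0 he1 hcomm htr hfin using hex
  let F : Ultrafilter (GK A) := Ultrafilter.of Filter.atTop
  have hF : (F : Filter (GK A)) ≤ Filter.atTop := Ultrafilter.of_le _
  set m : (GK A → ℝ) → ℝ := fun g => ulim F (fun κ => g κ) with hmdef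
  have hm : IsMean m := ultra_isMean F (fun κ g => g κ) (fun κ => T08_mean_point κ)
  have hb : ∀ φ : A →L[ℂ] ℂ, ∀ κ, ‖ra φ (e κ)‖ ≤ ‖φ‖ := fun φ κ => G_ra_norm φ (he0 κ) (he1 κ)
  have hb' : ∀ φ : A →L[ℂ] ℂ, ∃ C, ∀ κ, ‖ra φ (e κ)‖ ≤ C := fun φ => ⟨_, hb φ⟩
  set P : (A →L[ℂ] ℂ) → (A →L[ℂ] ℂ) := fun φ => EX m (fun κ => ra φ (e κ)) with hP
  have hlim : ∀ (φ : A →L[ℂ] ℂ) (x : A),
      Filter.Tendsto (fun κ => φ (e κ * x)) (F : Filter (GK A)) (nhds (P φ x)) := fun φ x =>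
    G_tendsto F (fun κ => ra φ (e κ)) ‖φ‖ (hb φ) x
  -- the index is eventually large
  have hlarge : ∀ κ0 : GK A, ∀ᶠ κ in (F : Filter (GK A)), κ0 ≤ κ := fun κ0 =>
    hF (Filter.eventually_ge_atTop κ0)
  have hn0 : Filter.Tendsto (fun κ : GK A => 1 / ((κ.2.2.2 : ℝ) + 1)) (F : Filter (GK A)) (nhds 0) := by
    have h1 : Filter.Tendsto (fun κ : GK A => κ.2.2.2) (F : Filter (GK A)) Filter.atTop := by
      rw [Filter.tendsto_atTop]
      intro N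
      filter_upwards [hlarge (∅, ∅, ∅, N)] with κ hκ
      exact hκ.2.2.2
    exact tendsto_one_div_add_atTop_nhds_zero_nat.comp h1
  -- asymptotic centrality
  have hcu : ∀ u : unitary A, Filter.Tendsto (fun κ => ‖(u : A) * e κ - e κ * (u : A)‖)
      (F : Filter (GK A)) (nhds 0) := by
    intro u
    refine squeeze_zero' (Filter.Eventually.of_forall fun κ => norm_nonneg _) ?_ hn0
    filter_upwards [hlarge ({u}, ∅, ∅, 0)] with κ hκ
    exact hcomm κ u (hκ.1 (Finset.mem_singleton_self u))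
  have hca : ∀ a : A, Filter.Tendsto (fun κ => ‖a * e κ - e κ * a‖) (F : Filter (GK A)) (nhds 0) := by
    intro a
    have ha : a ∈ Submodule.span ℂ ((unitary A : Set A)) := by
      rw [CStarAlgebra.span_unitary]
      exact Submodule.mem_top
    induction ha using Submodule.span_induction with
    | mem x hx => exact hcu ⟨x, hx⟩
    | zero => simp
    | add x y _ _ hx hy =>
      have h := hx.add hy
      rw [add_zero] at h
      refine squeeze_zero (fun κ => norm_nonneg _) (fun κ => ?_) h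
      have e1 : (x + y) * e κ - e κ * (x + y) = (x * e κ - e κ * x) + (y * e κ - e κ * y) := by
        noncomm_ring
      rw [e1]
      exact norm_add_le _ _
    | smul c x _ hx =>
      have h := hx.const_mul ‖c‖
      rw [mul_zero] at h
      refine squeeze_zero (fun κ => norm_nonneg _) (fun κ => ?_) h
      have e1 : (c • x) * e κ - e κ * (c • x) = c • (x * e κ - e κ * x) := by
        rw [smul_mul_assoc, mul_smul_comm, smul_sub]
      rw [e1, norm_smul]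
  refine ⟨P, ?_, ?_, ?_, ?_, ?_, ?_, ?_⟩
  · intro φ ψ
    have h := EX_add hm (fun κ => ra φ (e κ)) (fun κ => ra ψ (e κ)) (hb' φ) (hb' ψ)
    exact h
  · intro c φ
    have h := EX_smul hm c (fun κ => ra φ (e κ)) (hb' φ)
    exact h
  · intro φ
    exact (EX_spec hm _ ‖φ‖ (hb φ)).2
  · intro a φ
    have h := EX_la hm a (fun κ => ra φ (e κ)) (hb' φ)
    have e1 : (fun κ => ra (la a φ) (e κ)) = fun κ => la a (ra φ (e κ)) := by
      funext κ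
      ext x
      show φ (e κ * x * a) = φ (e κ * (x * a))
      rw [mul_assoc]
    show EX m (fun κ => ra (la a φ) (e κ)) = _
    rw [e1]
    exact h
  · intro a φ
    ext x
    show P (ra φ a) x = P φ (a * x)
    have h1 := hlim (ra φ a) x
    have h2 := hlim φ (a * x)
    have h3 : Filter.Tendsto (fun κ => φ ((a * e κ - e κ * a) * x)) (F : Filter (GK A)) (nhds 0) := by
      rw [tendsto_zero_iff_norm_tendsto_zero]
      have h := ((hca a).const_mul ‖φ‖).mul_const ‖x‖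
      rw [mul_zero, zero_mul] at h
      refine squeeze_zero (fun κ => norm_nonneg _) (fun κ => ?_) h
      calc ‖φ ((a * e κ - e κ * a) * x)‖ ≤ ‖φ‖ * ‖(a * e κ - e κ * a) * x‖ := φ.le_opNorm _
        _ ≤ ‖φ‖ * (‖a * e κ - e κ * a‖ * ‖x‖) := by
          gcongr
          exact norm_mul_le _ _
        _ = _ := by ring
    have h4 := h2.add h3
    rw [add_zero] at h4
    refine tendsto_nhds_unique h1 (h4.congr fun κ => ?_)
    show φ (e κ * (a * x)) + φ ((a * e κ - e κ * a) * x) = φ (a * (e κ * x))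
    rw [← map_add]
    congr 1
    noncomm_ring
  · intro φ ε hε
    obtain ⟨k, hk⟩ := exists_nat_one_div_lt hε
    refine ⟨σ φ k, (hσ φ).1 k, fun x => ?_⟩
    have h1 : Filter.Tendsto (fun κ : GK A => Real.sqrt ((σ φ k (x * star x)).re) +
        (1 / ((k : ℝ) + 1) + ‖φ‖ * (1 / ((κ.2.2.2 : ℝ) + 1))) * ‖x‖) (F : Filter (GK A))
        (nhds (Real.sqrt ((σ φ k (x * star x)).re) + (1 / ((k : ℝ) + 1) + ‖φ‖ * 0) * ‖x‖)) :=
      tendsto_const_nhds.add ((tendsto_const_nhds.add (hn0.const_mul _)).mul_const _)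
    rw [mul_zero, add_zero] at h1
    have h2 : ‖P φ x‖ ≤ Real.sqrt ((σ φ k (x * star x)).re) + (1 / ((k : ℝ) + 1)) * ‖x‖ := by
      refine le_of_tendsto_of_tendsto (hlim φ x).norm h1 ?_
      filter_upwards [hlarge (∅, {φ}, ∅, k)] with κ hκ
      exact hfin κ φ (hκ.2.1 (Finset.mem_singleton_self φ)) k hκ.2.2.2 x
    refine h2.trans ?_
    gcongr
  · intro φ τ hτ ε hε
    obtain ⟨n0, hn0'⟩ := exists_nat_one_div_lt (show 0 < ε / (1 + ‖φ‖) by positivity)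
    have hη : (1 / ((n0 : ℝ) + 1) + ‖φ‖ * (1 / ((n0 : ℝ) + 1))) ≤ ε := by
      have : (1 / ((n0 : ℝ) + 1)) * (1 + ‖φ‖) ≤ ε := by
        rw [← le_div_iff₀ (by positivity)]
        exact hn0'.le
      linarith
    have hη1 : 1 / ((n0 : ℝ) + 1) ≤ ε := by
      have : 0 ≤ ‖φ‖ * (1 / ((n0 : ℝ) + 1)) := by positivity
      linarith
    set κ0 : GK A := (∅, {φ}, {τ}, n0) with hκ0
    set D : A := e κ0 with hD
    refine ⟨D, he0 κ0, he1 κ0, (htr κ0 τ (Finset.mem_singleton_self τ) hτ).trans hη1, fun y => ?_⟩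
    have hDn : ‖D‖ ≤ 1 := G_norm (he0 κ0) (he1 κ0)
    set s : A →L[ℂ] ℂ := σ φ n0 with hs
    have hsP : IsPT s := (hσ φ).1 n0
    -- `s(1 - e κ) → 0`
    have hs0 : Filter.Tendsto (fun κ => (s (1 - e κ)).re) (F : Filter (GK A)) (nhds 0) := by
      refine squeeze_zero' (Filter.Eventually.of_forall fun κ =>
        G_pos hsP.1 (sub_nonneg.mpr (he1 κ))) ?_ hn0
      filter_upwards [hlarge (∅, ∅, {s}, 0)] with κ hκ
      exact htr κ s (hκ.2.2.1 (Finset.mem_singleton_self s)) hsP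
    have h1 : Filter.Tendsto (fun κ => φ (D * y) - φ (e κ * (D * y))) (F : Filter (GK A))
        (nhds ((φ - P φ) (D * y))) := tendsto_const_nhds.sub (hlim φ (D * y))
    have h2 : Filter.Tendsto (fun κ : GK A => (Real.sqrt (‖y‖ ^ 2 * (s (1 - e κ)).re) + ε * ‖y‖) +
        ‖φ‖ * (‖D * e κ - e κ * D‖ * ‖y‖)) (F : Filter (GK A))
        (nhds ((Real.sqrt (‖y‖ ^ 2 * 0) + ε * ‖y‖) + ‖φ‖ * (0 * ‖y‖))) := by
      refine Filter.Tendsto.add (Filter.Tendsto.add ?_ tendsto_const_nhds)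
        (((hca D).mul_const _).const_mul _)
      exact (Real.continuous_sqrt.tendsto _).comp (hs0.const_mul _)
    have h3 : (Real.sqrt (‖y‖ ^ 2 * 0) + ε * ‖y‖) + ‖φ‖ * (0 * ‖y‖) = ε * ‖y‖ := by
      rw [mul_zero, Real.sqrt_zero, zero_mul, mul_zero]
      ring
    rw [h3] at h2
    refine le_of_tendsto_of_tendsto h1.norm h2 (Filter.Eventually.of_forall fun κ => ?_)
    have h0e : 0 ≤ 1 - e κ := sub_nonneg.mpr (he1 κ)
    have h1e : 1 - e κ ≤ 1 := by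
      rw [sub_le_self_iff]
      exact he0 κ
    have e1 : φ (D * y) - φ (e κ * (D * y)) = φ (D * ((1 - e κ) * y)) +
        φ ((D * e κ - e κ * D) * y) := by
      rw [← map_sub, ← map_add]
      congr 1
      noncomm_ring
    have h4 := hfin κ0 φ (Finset.mem_singleton_self φ) n0 le_rfl ((1 - e κ) * y)
    have h5 : Real.sqrt ((s ((1 - e κ) * y * star ((1 - e κ) * y))).re) ≤
        Real.sqrt (‖y‖ ^ 2 * (s (1 - e κ)).re) := Real.sqrt_le_sqrt (G_tr_small hsP h0e h1e y)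
    have h6 : ‖(1 - e κ) * y‖ ≤ ‖y‖ := by
      calc ‖(1 - e κ) * y‖ ≤ ‖1 - e κ‖ * ‖y‖ := norm_mul_le _ _
        _ ≤ 1 * ‖y‖ := by
          have := G_norm h0e h1e
          gcongr
        _ = _ := one_mul _
    have h7 : ‖φ (D * ((1 - e κ) * y))‖ ≤ Real.sqrt (‖y‖ ^ 2 * (s (1 - e κ)).re) + ε * ‖y‖ := by
      refine h4.trans (add_le_add h5 ?_)
      exact mul_le_mul hη h6 (norm_nonneg _) hε.le
    have h8 : ‖φ ((D * e κ - e κ * D) * y)‖ ≤ ‖φ‖ * (‖D * e κ - e κ * D‖ * ‖y‖) :=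
      (φ.le_opNorm _).trans (mul_le_mul_of_nonneg_left (norm_mul_le _ _) (norm_nonneg _))
    show ‖φ (D * y) - φ (e κ * (D * y))‖ ≤ _
    rw [e1]
    exact (norm_add_le _ _).trans (add_le_add h7 h8)

/-- task G from the exact statements of the tasks A and F: use it as
`dec A := dec_wrap A (fun E ε hε => tele E ε hε) (fun φ => dec_pt φ)` -/
theorem dec_wrap (A : Type u) [CStarAlgebra A]
    (htele : ∀ (E : Finset (unitary A)) (ε : ℝ), 0 < ε →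
      ∃ (V : Finset (unitary A)) (c : ℝ), 0 ≤ c ∧ ∀ h : A, 0 ≤ h → ∃ e : A, 0 ≤ e ∧ e ≤ 1 ∧
        (∀ u ∈ E, ‖(u : A) * e - e * (u : A)‖ ≤ ε) ∧
        1 - e ≤ c • ∑ v ∈ V, star (v : A) * h * (v : A) ∧
        ∀ z : A, star z * z ≤ h → ‖z * e‖ ≤ ε)
    (hpt : ∀ φ : A →L[ℂ] ℂ, ∃ σ : ℕ → (A →L[ℂ] ℂ), (∀ k, IsPT (σ k)) ∧
      ∀ (τ : A →L[ℂ] ℂ), IsPT τ → ∀ (n : ℕ) (δ : ℝ), 0 < δ → ∃ x : A, ‖x‖ ≤ 1 ∧
        (τ (x * star x)).re ≤ δ ∧ ∀ k ≤ n, ∀ y : A,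
          ‖φ ((1 - x * star x) * y)‖ ≤
            Real.sqrt ((σ k (y * star y)).re) + (1 / ((k : ℝ) + 1)) * ‖y‖) :
    ∃ P : (A →L[ℂ] ℂ) → (A →L[ℂ] ℂ),
    (∀ φ ψ, P (φ + ψ) = P φ + P ψ) ∧ (∀ (c : ℂ) φ, P (c • φ) = c • P φ) ∧ (∀ φ, ‖P φ‖ ≤ ‖φ‖) ∧
    (∀ a φ, P (la a φ) = la a (P φ)) ∧ (∀ a φ, P (ra φ a) = ra (P φ) a) ∧
    (∀ φ, FT (P φ)) ∧ ∀ φ, InfT (φ - P φ) := by
  choose σ h1 h2 using hpt
  exact dec_of htele σ (fun φ => ⟨h1 φ, h2 φ⟩)

end H504S
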